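import Pool.Agent.Helper94.LG.Sheet2

/-!
LG, row CNT3: small balls around a point contain at least the radius of every edge end there.
-/

open MeasureTheory Metric Set Filter Topology
open scoped ENNReal NNReal

namespace H11ST
namespace LG

variable {d : ℕ}

theorem cnt3_key (a b : E d) (hab : a ≠ b) (ε : ℝ) (hε : 0 < ε) (hle : ε ≤ dist a b) :
    ε ≤ ml (ball a ε) a b := by
  have hd : 0 < dist a b := dist_pos.2 hab
  have hfin : μH[1] (segment ℝ a b ∩ ball a ε) ≠ ⊤ := by
    apply ne_top_of_le_ne_top _ (measure_mono inter_subset_left)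
    rw [hausdorffMeasure_segment]
    exact edist_ne_top a b
  by_contra hcon
  push Not at hcon
  have h0 : 0 ≤ ml (ball a ε) a b := ENNReal.toReal_nonneg
  obtain ⟨δ, hδ1, hδ2⟩ := exists_between hcon
  have hδ0 : 0 < δ := lt_of_le_of_lt h0 hδ1
  have hc1 : (AffineMap.lineMap a b (δ / dist a b) : E d) ∈ segment ℝ a b := by
    rw [segment_eq_image_lineMap]
    refine ⟨δ / dist a b, ⟨by positivity, ?_⟩, rfl⟩
    rw [div_le_one hd]
    linarith
  have hc2 : dist a (AffineMap.lineMap a b (δ / dist a b) : E d) = δ := by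
    rw [dist_left_lineMap, Real.norm_of_nonneg (by positivity)]
    field_simp
  have hsub : segment ℝ a (AffineMap.lineMap a b (δ / dist a b) : E d) ⊆
      segment ℝ a b ∩ ball a ε := by
    apply subset_inter
    · exact (convex_segment a b).segment_subset (left_mem_segment ℝ a b) hc1
    · apply (convex_ball a ε).segment_subset (mem_ball_self hε)
      rw [mem_ball, dist_comm, hc2]
      exact hδ2
  have h1 : δ ≤ ml (ball a ε) a b := by
    have h2 : (μH[1] (segment ℝ a (AffineMap.lineMap a b (δ / dist a b) : E d))).toReal = δ := by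
      rw [hausdorffMeasure_segment, edist_dist, hc2, ENNReal.toReal_ofReal hδ0.le]
    rw [← h2]
    exact ENNReal.toReal_mono hfin (measure_mono hsub)
  linarith

theorem cnt3_edge (y a b : E d) : ∃ ε0 : ℝ, 0 < ε0 ∧ ∀ ε : ℝ, 0 < ε → ε ≤ ε0 →
    (en y a b : ℝ) * ε ≤ ml (ball y ε) a b := by
  by_cases hab : a = b
  · refine ⟨1, one_pos, fun ε _ _ => ?_⟩
    have h1 : en y a b = 0 := by simp [en, hab]
    rw [h1, Nat.cast_zero, zero_mul]
    exact ENNReal.toReal_nonneg
  · refine ⟨dist a b, dist_pos.2 hab, fun ε hε hle => ?_⟩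
    by_cases ha : a = y
    · have hb : b ≠ y := fun h => hab (ha.trans h.symm)
      have h1 : en y a b = 1 := by simp [en, ha, hb, Ne.symm hb]
      rw [h1, Nat.cast_one, one_mul, ← ha]
      exact cnt3_key a b hab ε hε hle
    · by_cases hb : b = y
      · have h1 : en y a b = 1 := by simp [en, ha, hb]
        rw [h1, Nat.cast_one, one_mul, ← hb]
        have h2 : ml (ball b ε) a b = ml (ball b ε) b a := by
          unfold ml
          rw [segment_symm]
        rw [h2]
        exact cnt3_key b a (fun h => hab h.symm) ε hε (by rw [dist_comm]; exact hle)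
      · have h1 : en y a b = 0 := by simp [en, hab, ha, hb]
        rw [h1, Nat.cast_zero, zero_mul]
        exact ENNReal.toReal_nonneg

theorem cnt3_tree (y : E d) (t : BT (Fin d) (E d)) : ∃ ε0 : ℝ, 0 < ε0 ∧ ∀ ε : ℝ, 0 < ε → ε ≤ ε0 →
    (gn y t : ℝ) * ε ≤ t.esum (tm d) (ml (ball y ε)) := by
  induction t with
  | leaf i =>
    refine ⟨1, one_pos, fun ε _ _ => ?_⟩
    simp [gn, BT.esum]
  | node z l r hl hr =>
    obtain ⟨e1, h1, H1⟩ := hl
    obtain ⟨e2, h2, H2⟩ := hr
    obtain ⟨e3, h3, H3⟩ := cnt3_edge y z (l.pos (tm d))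
    obtain ⟨e4, h4, H4⟩ := cnt3_edge y z (r.pos (tm d))
    refine ⟨min (min e1 e2) (min e3 e4), lt_min (lt_min h1 h2) (lt_min h3 h4), fun ε hε hle => ?_⟩
    have a1 := H1 ε hε (hle.trans ((min_le_left _ _).trans (min_le_left _ _)))
    have a2 := H2 ε hε (hle.trans ((min_le_left _ _).trans (min_le_right _ _)))
    have a3 := H3 ε hε (hle.trans ((min_le_right _ _).trans (min_le_left _ _)))
    have a4 := H4 ε hε (hle.trans ((min_le_right _ _).trans (min_le_right _ _)))
    simp only [gn, BT.esum, Nat.cast_add]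
    nlinarith

/-- (CNT3) -/
theorem cnt3 : LG_CNT3 := by
  intro d i0 t y
  obtain ⟨e1, h1, H1⟩ := cnt3_tree y t
  obtain ⟨e2, h2, H2⟩ := cnt3_edge y (tm d i0) (t.pos (tm d))
  refine ⟨min e1 e2, lt_min h1 h2, fun ε hε hle => ?_⟩
  have a1 := H1 ε hε (hle.trans (min_le_left _ _))
  have a2 := H2 ε hε (hle.trans (min_le_right _ _))
  unfold tot
  rw [Nat.cast_add, add_mul]
  linarith

end LG
end H11ST
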